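import Mathlib

set_option autoImplicit false

namespace Pool.Agent.Results.MP_03cbb9_co.Counter

/-- A neighbor-locating colouring with `k` colours. -/
def IsNL {V : Type} (G : SimpleGraph V) (k : ℕ) (c : V → Fin k) : Prop :=
  (∀ u v, G.Adj u v → c u ≠ c v) ∧
    ∀ u v, u ≠ v → c u = c v → c '' G.neighborSet u ≠ c '' G.neighborSet v

/-- The neighbor-locating chromatic number. -/
noncomputable def chiNL {V : Type} (G : SimpleGraph V) : ℕ :=
  sInf {k | ∃ c : V → Fin k, IsNL G k c}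

/-- Generating relation of the Mycielski graph: `some (inl u)` is `u`, `some (inr u)` is `u'`,
`none` is `w`. -/
def mycRel {V : Type} (G : SimpleGraph V) : Option (V ⊕ V) → Option (V ⊕ V) → Prop
  | some (Sum.inl u), some (Sum.inl v) => G.Adj u v
  | some (Sum.inr u), some (Sum.inl v) => G.Adj u v
  | none, some (Sum.inr _) => True
  | _, _ => False

/-- The Mycielski graph. -/
def myc {V : Type} (G : SimpleGraph V) : SimpleGraph (Option (V ⊕ V)) :=
  SimpleGraph.fromRel (mycRel G)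

def EL : List (Fin 7 × Fin 7) :=
  [(0, 1), (2, 4), (3, 4), (2, 5), (3, 5), (0, 6), (1, 6), (4, 6), (5, 6)]

def G : SimpleGraph (Fin 7) := SimpleGraph.fromRel fun u v => (u, v) ∈ EL

instance : DecidableRel G.Adj := fun u v =>
  inferInstanceAs (Decidable (u ≠ v ∧ ((u, v) ∈ EL ∨ (v, u) ∈ EL)))

instance : DecidableRel (mycRel G)
  | some (Sum.inl u), some (Sum.inl v) => inferInstanceAs (Decidable (G.Adj u v))
  | some (Sum.inr u), some (Sum.inl v) => inferInstanceAs (Decidable (G.Adj u v))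
  | none, some (Sum.inr _) => isTrue trivial
  | none, none => isFalse id
  | none, some (Sum.inl _) => isFalse id
  | some (Sum.inl _), none => isFalse id
  | some (Sum.inr _), none => isFalse id
  | some (Sum.inl _), some (Sum.inr _) => isFalse id
  | some (Sum.inr _), some (Sum.inr _) => isFalse id

instance : DecidableRel (myc G).Adj := fun u v =>
  inferInstanceAs (Decidable (u ≠ v ∧ (mycRel G u v ∨ mycRel G v u)))

lemma isNL_iff {V : Type} (G : SimpleGraph V) (k : ℕ) (c : V → Fin k) : IsNL G k c ↔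
    (∀ u v, G.Adj u v → c u ≠ c v) ∧ ∀ u v, u ≠ v → c u = c v →
      ¬ ∀ x, (∃ w, G.Adj u w ∧ c w = x) ↔ (∃ w, G.Adj v w ∧ c w = x) := by
  simp only [IsNL, ne_eq, Set.ext_iff, Set.mem_image, SimpleGraph.mem_neighborSet]

lemma mono {V : Type} (G : SimpleGraph V) {k l : ℕ} (h : k ≤ l) (c : V → Fin k)
    (hc : IsNL G k c) : IsNL G l (Fin.castLE h ∘ c) := by
  have inj := Fin.castLE_injective h
  refine ⟨fun u v a e => hc.1 u v a (inj e), fun u v a e q => hc.2 u v a (inj e) ?_⟩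
  rw [Set.image_comp, Set.image_comp] at q
  exact Set.image_injective.2 inj q

def nl (a b c d e f g : Fin 4) : Prop :=
  (a ≠ b ∧ c ≠ e ∧ d ≠ e ∧ c ≠ f ∧ d ≠ f ∧ a ≠ g ∧ b ≠ g ∧ e ≠ g ∧ f ≠ g) ∧
  ∀ u v, u ≠ v → ![a, b, c, d, e, f, g] u = ![a, b, c, d, e, f, g] v →
    ¬ ∀ x, (∃ w, G.Adj u w ∧ ![a, b, c, d, e, f, g] w = x) ↔
      (∃ w, G.Adj v w ∧ ![a, b, c, d, e, f, g] w = x)

instance (a b c d e f g : Fin 4) : Decidable (nl a b c d e f g) := by unfold nl; infer_instance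

lemma no4 : ∀ a b c d e f g : Fin 4, ¬ nl a b c d e f g := by decide +kernel

lemma no4' (c : Fin 7 → Fin 4) : ¬ IsNL G 4 c := by
  intro h
  rw [isNL_iff] at h
  have e : ![c 0, c 1, c 2, c 3, c 4, c 5, c 6] = c := by
    funext i; fin_cases i <;> rfl
  refine no4 (c 0) (c 1) (c 2) (c 3) (c 4) (c 5) (c 6) ⟨?_, ?_⟩
  · refine ⟨?_, ?_, ?_, ?_, ?_, ?_, ?_, ?_, ?_⟩ <;> exact h.1 _ _ (by decide)
  · rw [e]; exact h.2

lemma lower : 5 ≤ chiNL G := by
  by_contra h
  have ne : {k | ∃ c : Fin 7 → Fin k, IsNL G k c}.Nonempty :=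
    ⟨7, id, fun u v a => a.ne, fun u v a e => absurd e a⟩
  obtain ⟨c, hc⟩ := Nat.sInf_mem ne
  exact no4' _ (mono G (l := 4) (by unfold chiNL at h; omega) c hc)

def col : Option (Fin 7 ⊕ Fin 7) → Fin 5
  | some (Sum.inl u) => ![1, 2, 0, 3, 1, 2, 0] u
  | some (Sum.inr u) => ![3, 4, 3, 4, 1, 4, 0] u
  | none => 2

lemma upper : chiNL (myc G) ≤ 5 :=
  Nat.sInf_le ⟨col, by rw [isNL_iff]; decide +kernel⟩

theorem result : ¬ ∀ (n : ℕ) (G : SimpleGraph (Fin n)), G.Connected →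
    chiNL (myc G) = chiNL G + 1 := by
  intro h
  have c : G.Connected := by decide +kernel
  have := h 7 G c
  have a := lower
  have b := upper
  omega

end Pool.Agent.Results.MP_03cbb9_co.Counter
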